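import Pool.Agent.H.MP_ad013a_pr.h63.Flat
import Pool.Agent.H.MP_ad013a_pr.h63r.Q9.D0

namespace Pool.Agent.ad013a.R9

/-- choice of a leaf -/
noncomputable def leaf (i : Nat) : Nat :=
 (Bool.rec (motive := fun _ => Nat)
 (Bool.rec (motive := fun _ => Nat)
  (Bool.rec (motive := fun _ => Nat)
   L0
   L1
   (Nat.ble 128 i))
  L2
  (Nat.ble 256 i))
 (Bool.rec (motive := fun _ => Nat)
  (Bool.rec (motive := fun _ => Nat)
   L3
   L4
   (Nat.ble 512 i))
  L5
  (Nat.ble 640 i))
 (Nat.ble 384 i))

/-- entry number `i` -/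
noncomputable def g (i : Nat) : Nat := ent (leaf i) (Nat.land i 127)

/-- the check of one entry -/
noncomputable def chk (e : Nat) : Bool := chkF false 10000 131072 53781 7010 7120 g e

end Pool.Agent.ad013a.R9
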